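import Pool.Agent.N565.LC.Conn

/-!
# An exact Maslov-zero Lagrangian cobordism which is not genus-minimal

There are Legendrian knots `γ₀`, `γ₁` in the standard contact `ℝ³` and an exact, connected, oriented
Lagrangian cobordism `L` of Maslov class zero from `γ₀` to `γ₁` which has positive genus, although
the two knots cobound a smoothly embedded annulus in the same slab of the symplectization.
-/

set_option autoImplicit false

namespace Pool.Agent.Results.MP_70d14f_gt.NotGenusMinimal

open Pool.Agent.N565.LC

theorem result : ∃ (P T : ℝ) (γ₀ γ₁ : ℝ → R3) (L : Set R4) (A : ℝ × ℝ → R4),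
    0 < T ∧ IsLegendrianKnot P γ₀ ∧ IsLegendrianKnot P γ₁ ∧
    IsLagrangianCobordism T γ₀ γ₁ L ∧ IsExact T L ∧ MaslovZero L ∧
    HasPositiveGenus T L ∧ IsEmbeddedAnnulus P T γ₀ γ₁ A := by
  refine ⟨76, T0, γm, γp, Pool.Agent.N565.LC.L, An T0, T0_pos, γm_leg, γp_leg, ?_, L_exact, L_maslov,
    genus_pos, An_annulus T0_pos⟩
  exact
    { closed := L_closed
      surface := L_surface
      connected := L_connected
      lagrangian := L_lagrangian
      bottom := L_bottom
      top := L_top
      compact := L_compact T0
      oriented := ⟨ori, ori_orientation, bottom_pos, top_pos⟩ }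

end Pool.Agent.Results.MP_70d14f_gt.NotGenusMinimal
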